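import Pool.Agent.H21.CG.PairA

/-!
[H21 PW CELLM]  Cells of prescribed small mean `lam`, the elements in arbitrary coprime residue classes: first and second
factorial moments of the number of primes in a cell.  (From `cells2_nat`, `Pool/Agent/H21/CG/PairA.lean`.)
-/

namespace Pool.Agent.H21.PW

open Finset Pool.Agent.H30.CP Pool.Agent.H21.SH Pool.Agent.H21.MT Pool.Agent.H21.CG

/-- parameters -/
private theorem pr_par (k : ℕ) (hk : 1 ≤ k) (e η : ℝ) (he : 0 < e) (he1 : e ≤ 1 / 100)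
    (hη : 0 < η) : ∃ l₀ : ℕ, ∀ l : ℕ, l₀ ≤ l → ∃ τ : ℝ, 0 < τ ∧ (2 : ℝ) ^ l * τ ≤ 1 / 2 ∧
      k * 2 ^ l * (((l : ℝ) + 1) * τ) = e ∧ 0 < psv e τ l ∧
      1 + 50 * e ≤ e * (2 ^ l * psv e τ l) ∧ k * ((1 + 50 * e) * psv e τ l) ≤ η := by
  have hbl : ∀ l : ℕ, 1 ≤ bl l ∧ bl l ≤ 3 / 2 := by
    intro l
    unfold bl
    have h1 : (1 / 2 : ℝ) ^ (l + 1) ≤ (1 / 2 : ℝ) ^ 1 :=
      pow_le_pow_of_le_one (by norm_num) (by norm_num) (by omega)
    have h2 : (0 : ℝ) < (1 / 2 : ℝ) ^ (l + 1) := by positivity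
    constructor <;> linarith
  have hk0 : (0 : ℝ) < k := by exact_mod_cast hk
  have hk1 : (1 : ℝ) ≤ k := by exact_mod_cast hk
  obtain ⟨l1, hl1⟩ := exists_nat_ge (12 * (k : ℝ) / e ^ 3)
  have hlim : Filter.Tendsto (fun n : ℕ => (n : ℝ) ^ 1 / (2 : ℝ) ^ n) Filter.atTop (nhds 0) :=
    tendsto_pow_const_div_const_pow_of_one_lt 1 (by norm_num)
  have h1 := hlim.eventually_lt_const (show (0 : ℝ) < η / 5 by positivity)
  obtain ⟨l2, hl2⟩ := Filter.eventually_atTop.1 h1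
  refine ⟨l1 + l2 + 1, fun l hl => ⟨e / (k * 2 ^ l * ((l : ℝ) + 1)), by positivity, ?_, ?_, ?_, ?_, ?_⟩⟩
  · have hl0 : (0 : ℝ) ≤ l := Nat.cast_nonneg l
    have h2 : (2 : ℝ) ^ l * (e / (k * 2 ^ l * ((l : ℝ) + 1))) = e / (k * ((l : ℝ) + 1)) := by
      field_simp
    rw [h2, div_le_iff₀ (by positivity)]
    nlinarith [mul_nonneg hk0.le hl0]
  · field_simp
  · obtain ⟨hb1, hb2⟩ := hbl l
    unfold psv
    have : 0 < bl l := by linarith
    positivity
  · obtain ⟨hb1, hb2⟩ := hbl l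
    have hb0 : 0 < bl l := by linarith
    have hll : (l1 : ℝ) ≤ l := by
      have : l1 ≤ l := by omega
      exact_mod_cast this
    have hl0 : (0 : ℝ) ≤ l := Nat.cast_nonneg l
    have h2 : e * (2 ^ l * psv e (e / (k * 2 ^ l * ((l : ℝ) + 1))) l) =
        e ^ 3 * ((l : ℝ) + 2) ^ 2 / (4 * bl l * k * ((l : ℝ) + 1)) := by
      unfold psv
      field_simp
    rw [h2, le_div_iff₀ (by positivity)]
    have h3 : 12 * (k : ℝ) ≤ l * e ^ 3 := by
      rw [div_le_iff₀ (by positivity)] at hl1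
      refine hl1.trans ?_
      exact mul_le_mul_of_nonneg_right hll (by positivity)
    calc (1 + 50 * e) * (4 * bl l * k * ((l : ℝ) + 1)) ≤
        2 * (4 * (3 / 2) * k * ((l : ℝ) + 1)) := by
          have : 1 + 50 * e ≤ 2 := by linarith
          gcongr
      _ = 12 * k * ((l : ℝ) + 1) := by ring
      _ ≤ l * e ^ 3 * ((l : ℝ) + 1) := by gcongr
      _ = e ^ 3 * (l * ((l : ℝ) + 1)) := by ring
      _ ≤ e ^ 3 * ((l : ℝ) + 2) ^ 2 := by
          have : (l : ℝ) * ((l : ℝ) + 1) ≤ ((l : ℝ) + 2) ^ 2 := by nlinarith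
          gcongr
  · obtain ⟨hb1, hb2⟩ := hbl l
    have hb0 : 0 < bl l := by linarith
    have hl1' : (1 : ℝ) ≤ l := by
      have : 1 ≤ l := by omega
      exact_mod_cast this
    have hl0 : (0 : ℝ) ≤ l := Nat.cast_nonneg l
    have h4 := hl2 l (by omega)
    rw [pow_one] at h4
    have h2 : k * ((1 + 50 * e) * psv e (e / (k * 2 ^ l * ((l : ℝ) + 1))) l) =
        (1 + 50 * e) * e ^ 2 * ((l : ℝ) + 2) ^ 2 / (4 * bl l * 2 ^ l * ((l : ℝ) + 1)) := by
      unfold psv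
      field_simp
    rw [h2]
    have h5 : (1 + 50 * e) * e ^ 2 * ((l : ℝ) + 2) ^ 2 / (4 * bl l * 2 ^ l * ((l : ℝ) + 1)) ≤
        5 * ((l : ℝ) / 2 ^ l) := by
      rw [← mul_div_assoc, div_le_div_iff₀ (by positivity) (by positivity)]
      have h6 : ((l : ℝ) + 2) ^ 2 ≤ 5 * l * ((l : ℝ) + 1) := by nlinarith
      have h7 : (1 + 50 * e) * e ^ 2 ≤ 4 := by nlinarith [sq_nonneg e]
      calc (1 + 50 * e) * e ^ 2 * ((l : ℝ) + 2) ^ 2 * 2 ^ l ≤
          4 * (5 * l * ((l : ℝ) + 1)) * 2 ^ l := by gcongr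
        _ = 5 * l * (4 * 1 * 2 ^ l * ((l : ℝ) + 1)) := by ring
        _ ≤ 5 * l * (4 * bl l * 2 ^ l * ((l : ℝ) + 1)) := by gcongr
    linarith

/-- the parameters of the cells -/
private theorem pr_cellsM (m : ℕ) (hm : 1 ≤ m) (lam : ℝ) (hlam : 0 < lam) (hlam1 : lam ≤ 1) :
    ∃ (s l : ℕ) (e τ : ℝ), 1 ≤ s ∧ 0 < e ∧ e ≤ 1 / 100 ∧
    0 < τ ∧ (2 : ℝ) ^ l * τ ≤ 1 / 2 ∧ (m : ℝ) * s * (((l : ℝ) + 1) * τ) ≤ e ∧
    199 / 200 * lam ≤ (1 - 50 * e) * (s * psv e τ l) ∧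
    4 * (1 + 50 * e) ^ 2 * (s * psv e τ l) ^ 2 ≤ 5 * lam ^ 2 := by
  obtain ⟨l, hl⟩ := pr_par m hm (1 / 10000) (lam / 100) (by norm_num) (by norm_num) (by positivity)
  obtain ⟨τ, h1, h2, h3, h4, h5, h6⟩ := hl l le_rfl
  set p : ℝ := psv (1 / 10000) τ l with hp
  have hmR : (1 : ℝ) ≤ m := by exact_mod_cast hm
  have hp1 : p ≤ lam / 100 := by
    have h7 : p ≤ m * ((1 + 50 * (1 / 10000)) * p) := by nlinarith
    linarith
  have h2l : (1 : ℝ) ≤ 2 ^ l * p := by nlinarith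
  set s : ℕ := ⌈lam / p⌉₊ with hs
  have hs1 : lam / p ≤ s := Nat.le_ceil _
  have hs2 : (s : ℝ) < lam / p + 1 := Nat.ceil_lt_add_one (by positivity)
  have hsp1 : lam ≤ s * p := by
    rw [div_le_iff₀ h4] at hs1
    exact hs1
  have hsp2 : s * p ≤ lam + lam / 100 := by
    have h8 : (s : ℝ) * p ≤ (lam / p + 1) * p := mul_le_mul_of_nonneg_right hs2.le h4.le
    have h9 : (lam / p + 1) * p = lam + p := by
      field_simp
    linarith
  have hs0 : 1 ≤ s := by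
    rw [Nat.one_le_iff_ne_zero]
    intro h0
    rw [h0] at hsp1
    norm_num at hsp1
    linarith
  have hsl : (s : ℝ) ≤ 2 ^ l := by
    have h7 : s ≤ 2 ^ l := by
      rw [hs]
      apply Nat.ceil_le.2
      push_cast
      rw [div_le_iff₀ h4]
      linarith
    exact_mod_cast h7
  refine ⟨s, l, 1 / 10000, τ, hs0, by norm_num, by norm_num, h1, h2, ?_, ?_, ?_⟩
  · rw [← h3]
    gcongr
  · rw [← hp]
    nlinarith
  · rw [← hp]
    have h10 : (s * p) ^ 2 ≤ (lam + lam / 100) ^ 2 := by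
      have : 0 ≤ s * p := by positivity
      gcongr
    nlinarith [sq_nonneg lam]

open Classical in
/-- cells of mean about `lam` -/
theorem cellsM (m : ℕ) (hm : 1 ≤ m) (lam : ℝ) (hlam : 0 < lam) (hlam1 : lam ≤ 1) : ∃ s : ℕ, 1 ≤ s ∧ ∀ (ι : Type) [Fintype ι] [DecidableEq ι]
    (V : ι → Finset ℤ), Fintype.card ι = m → (∀ j, (V j).card = s) →
    (∀ i j, i ≠ j → Disjoint (V i) (V j)) →
    (∀ p : ℕ, p.Prime → ∃ a : ℤ, ∀ j, ∀ h ∈ V j, ¬ (p : ℤ) ∣ a + h) →
    ∀ L c₀ : ℕ, 0 < L → (∀ j, ∀ h ∈ V j, IsCoprime ((c₀ : ℤ) + h) (L : ℤ)) → ∀ D N0 : ℕ,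
    ∃ (T : Finset ℕ) (μ : ℕ → ℝ), (∀ N ∈ T, N0 < N ∧ N ≡ c₀ [MOD L] ∧
        ∀ b : ℤ, |b| ≤ D → PP N b → ∃ j, b ∈ V j) ∧
      (∀ N, 0 ≤ μ N) ∧ ∑ N ∈ T, μ N = 1 ∧
      ∀ j, 199 / 200 * lam ≤ ∑ N ∈ T, μ N * (((V j).filter (fun b => PP N b)).card : ℝ) ∧
        ∑ N ∈ T, μ N * ((((V j).filter (fun b => PP N b)).card : ℝ) *
          ((((V j).filter (fun b => PP N b)).card : ℝ) - 1)) ≤ 5 * lam ^ 2 := by
  obtain ⟨s, l, e, τ, hs, he, he1, hτ, hτ1, hτ2, hF, hG⟩ := pr_cellsM m hm lam hlam hlam1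
  refine ⟨s, hs, fun ι _ _ V hcι hcard hdisj hadm L c₀ hL hcopV D N0 => ?_⟩
  have : Nonempty ι := by
    rw [← Fintype.card_pos_iff, hcι]
    omega
  set S : ℕ := L * (D + ∑ j, ∑ b ∈ V j, b.natAbs) with hS
  have hSD : D ≤ S := by
    rw [hS]
    exact le_trans (Nat.le_add_right _ _) (Nat.le_mul_of_pos_left _ hL)
  have hSb : ∀ j, ∀ b ∈ V j, b.natAbs ≤ S := by
    intro j b hb
    have h1 : b.natAbs ≤ ∑ b ∈ V j, b.natAbs :=
      Finset.single_le_sum (f := fun b : ℤ => b.natAbs) (fun _ _ => Nat.zero_le _) hb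
    have h2 : ∑ b ∈ V j, b.natAbs ≤ ∑ j, ∑ b ∈ V j, b.natAbs :=
      Finset.single_le_sum (f := fun j => ∑ b ∈ V j, b.natAbs) (fun _ _ => Nat.zero_le _)
        (Finset.mem_univ j)
    have h3 : D + ∑ j, ∑ b ∈ V j, b.natAbs ≤ S := by
      rw [hS]
      exact Nat.le_mul_of_pos_left _ hL
    omega
  have hLS : L ∣ S := ⟨_, rfl⟩
  have hnn : ∀ j, ∀ b ∈ V j, 0 ≤ b + S := by
    intro j b hb
    have := hSb j b hb
    omega
  have hinjS : ∀ j, Set.InjOn (fun b : ℤ => (b + (S : ℤ)).toNat) (V j) := by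
    intro j a ha b hb hab
    have h1 := hnn j a ha
    have h2 := hnn j b hb
    have h3 : (a + (S : ℤ)).toNat = (b + (S : ℤ)).toNat := hab
    omega
  obtain ⟨T, μ, hT, hμ0, hμ1, hmom⟩ := cells2_nat m s l e τ hcι hs he he1 hτ hτ1 hτ2
    (fun j => (V j).image (fun b => (b + (S : ℤ)).toNat))
    (by
      intro j
      rw [card_image_of_injOn (hinjS j), hcard])
    (by
      intro i j hij
      rw [disjoint_left]
      intro g hg hg'
      obtain ⟨a, ha, ha'⟩ := mem_image.1 hg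
      obtain ⟨b, hb, hb'⟩ := mem_image.1 hg'
      have h1 := hnn i a ha
      have h2 := hnn j b hb
      have h3 : a = b := by omega
      subst h3
      exact disjoint_left.1 (hdisj i j hij) ha hb)
    (by
      intro p hp
      obtain ⟨a, ha⟩ := hadm p hp
      have hp0 : (0 : ℤ) < p := by exact_mod_cast hp.pos
      refine ⟨((a - S) % (p : ℤ)).toNat, fun j h hh hdv => ?_⟩
      obtain ⟨b, hb, hb'⟩ := mem_image.1 hh
      apply ha j b hb
      have h1 : ((((a - S) % (p : ℤ)).toNat : ℕ) : ℤ) = (a - S) % (p : ℤ) :=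
        Int.toNat_of_nonneg (Int.emod_nonneg _ hp0.ne')
      have h2 : (h : ℤ) = b + S := by
        rw [← hb']
        exact Int.toNat_of_nonneg (hnn j b hb)
      have h3 : (p : ℤ) ∣ ((((a - S) % (p : ℤ)).toNat + h : ℕ) : ℤ) := by exact_mod_cast hdv
      rw [Nat.cast_add, h1, h2] at h3
      have h4 : (p : ℤ) ∣ (a - S) - (a - S) % (p : ℤ) := Int.dvd_self_sub_emod
      have h5 := dvd_add h3 h4
      have h6 : (a - S) % (p : ℤ) + (b + S) + ((a - S) - (a - S) % (p : ℤ)) = a + b := by ring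
      rw [h6] at h5
      exact h5)
    L c₀ hL
    (by
      intro j h hh
      obtain ⟨b, hb, hb'⟩ := mem_image.1 hh
      have h2 : (h : ℤ) = b + S := by
        rw [← hb']
        exact Int.toNat_of_nonneg (hnn j b hb)
      have h3 := hcopV j b hb
      obtain ⟨q, hq⟩ := hLS
      have h4 : IsCoprime ((c₀ : ℤ) + b + L * q) (L : ℤ) := h3.add_mul_left_left (q : ℤ)
      have h5 : ((c₀ + h : ℕ) : ℤ) = (c₀ : ℤ) + b + L * q := by
        rw [Nat.cast_add, h2, hq]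
        push_cast
        ring
      rw [← h5] at h4
      exact Nat.isCoprime_iff_coprime.1 h4)
    (D + S) N0
  have hPP : ∀ (N : ℕ) (j : ι), ((V j).filter (fun b => PP (N + S) b)).card =
      (((V j).image (fun b => (b + (S : ℤ)).toNat)).filter (fun a => (N + a).Prime)).card := by
    intro N j
    rw [filter_image, card_image_of_injOn]
    · congr 1
      apply filter_congr
      intro b hb
      exact PP_shift (hnn j b hb)
    · exact (hinjS j).mono (fun b hb => (mem_filter.1 hb).1)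
  refine ⟨T.image (fun N => N + S), fun N => μ (N - S), ?_, fun N => hμ0 _, ?_, ?_⟩
  · intro N hN
    obtain ⟨N', hN', rfl⟩ := mem_image.1 hN
    obtain ⟨h1, h2, h3⟩ := hT N' hN'
    refine ⟨by omega, ?_, ?_⟩
    · have h4 : N' + S ≡ c₀ + 0 [MOD L] := h2.add ((Nat.modEq_zero_iff_dvd).2 hLS)
      simpa using h4
    · intro b hb hp
      have hb' := abs_le.1 hb
      have hbS : 0 ≤ b + S := by
        have : (D : ℤ) ≤ S := by exact_mod_cast hSD
        linarith [hb'.1]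
      by_contra hcon
      push Not at hcon
      have h5 := h3 (b + S).toNat (by
        have : (b + S : ℤ) ≤ ((D + S : ℕ) : ℤ) := by
          push_cast
          linarith [hb'.2]
        omega) (by
        intro j hj
        obtain ⟨b', hb1, hb2⟩ := mem_image.1 hj
        have h6 := hnn j b' hb1
        have h7 : b' = b := by omega
        subst h7
        exact hcon j hb1)
      exact h5 ((PP_shift hbS).1 hp)
  · rw [sum_image (fun a _ b _ hab => by
      have h : a + S = b + S := hab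
      omega)]
    simp only [Nat.add_sub_cancel]
    exact hμ1
  · intro j
    obtain ⟨h1, h2⟩ := hmom j
    constructor
    · rw [sum_image (fun a _ b _ hab => by
        have h : a + S = b + S := hab
        omega)]
      simp only [Nat.add_sub_cancel, hPP]
      exact hF.trans h1
    · rw [sum_image (fun a _ b _ hab => by
        have h : a + S = b + S := hab
        omega)]
      simp only [Nat.add_sub_cancel, hPP]
      exact h2.trans hG

end Pool.Agent.H21.PW
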