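import Mathlib

/-!
[H21 PW RUN]  A word of simple and multiple letters with many simple letters has a long run of simple letters.
-/

namespace Pool.Agent.H21.PW

open Finset

/-- induction: no run of more than `k` simple letters -/
private theorem run_ind (X : ℕ → ℕ) (k : ℕ)
    (hno : ∀ a b : ℕ, (∀ d, a ≤ d → d < b → X d ≤ 1) →
      ((Ico a b).filter (fun d => X d = 1)).card ≤ k) (n : ℕ) :
    ∃ a ≤ n, (∀ d, a ≤ d → d < n → X d ≤ 1) ∧
      ((range n).filter (fun d => X d = 1)).card ≤
        k * ((range n).filter (fun d => 2 ≤ X d)).card +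
          ((Ico a n).filter (fun d => X d = 1)).card := by
  induction n with
  | zero => exact ⟨0, le_rfl, fun d h1 h2 => absurd h2 (by omega), by simp⟩
  | succ n ih =>
    obtain ⟨a, ha, h1, h2⟩ := ih
    have e1 : (range (n + 1)).filter (fun d => X d = 1) =
        if X n = 1 then insert n ((range n).filter (fun d => X d = 1)) else
          (range n).filter (fun d => X d = 1) := by
      rw [range_add_one, filter_insert]
    have e2 : (range (n + 1)).filter (fun d => 2 ≤ X d) =
        if 2 ≤ X n then insert n ((range n).filter (fun d => 2 ≤ X d)) else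
          (range n).filter (fun d => 2 ≤ X d) := by
      rw [range_add_one, filter_insert]
    have e3 : (Ico a (n + 1)).filter (fun d => X d = 1) =
        if X n = 1 then insert n ((Ico a n).filter (fun d => X d = 1)) else
          (Ico a n).filter (fun d => X d = 1) := by
      rw [← Finset.insert_Ico_right_eq_Ico_add_one ha, filter_insert]
    by_cases hn2 : 2 ≤ X n
    · refine ⟨n + 1, le_rfl, fun d h3 h4 => absurd h4 (by omega), ?_⟩
      have hn1 : ¬ X n = 1 := by omega
      rw [e1, e2, if_neg hn1, if_pos hn2, card_insert_of_notMem (by simp)]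
      have h3 := hno a n h1
      have h4 : ((Ico (n + 1) (n + 1)).filter (fun d => X d = 1)).card = 0 := by simp
      rw [h4, mul_add]
      omega
    · refine ⟨a, by omega, fun d h3 h4 => ?_, ?_⟩
      · rcases Nat.lt_succ_iff_lt_or_eq.1 h4 with h5 | rfl
        · exact h1 d h3 h5
        · omega
      · rw [e1, e2, e3, if_neg hn2]
        by_cases hn1 : X n = 1
        · rw [if_pos hn1, if_pos hn1, card_insert_of_notMem (by simp),
            card_insert_of_notMem (by simp)]
          omega
        · rw [if_neg hn1, if_neg hn1]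
          exact h2

/-- a run of `k + 1` adjacent simple letters -/
theorem run_exists (n k : ℕ) (X : ℕ → ℕ)
    (h : k * (((range n).filter (fun d => 2 ≤ X d)).card + 1) <
      ((range n).filter (fun d => X d = 1)).card) :
    ∃ c : Fin (k + 1) → ℕ, StrictMono c ∧ (∀ l, c l < n) ∧ (∀ l, X (c l) = 1) ∧
      ∀ d, c 0 ≤ d → d ≤ c (Fin.last k) → X d ≠ 0 → ∃ l, c l = d := by
  classical
  obtain ⟨a, b, hb, hab, hcard⟩ : ∃ a b : ℕ, b ≤ n ∧ (∀ d, a ≤ d → d < b → X d ≤ 1) ∧
      k < ((Ico a b).filter (fun d => X d = 1)).card := by
    by_contra hcon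
    push Not at hcon
    have hno : ∀ a b : ℕ, (∀ d, a ≤ d → d < b → (if d < n then X d else 0) ≤ 1) →
        ((Ico a b).filter (fun d => (if d < n then X d else 0) = 1)).card ≤ k := by
      intro a b hd
      rcases Nat.lt_or_ge n b with h1 | h1
      · have h2 := hcon a n le_rfl (fun d h3 h4 => by
          have h5 := hd d h3 (by omega)
          rwa [if_pos h4] at h5)
        refine le_trans (card_le_card ?_) h2
        intro d hd'
        rw [mem_filter, mem_Ico] at hd' ⊢
        by_cases h6 : d < n
        · rw [if_pos h6] at hd'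
          exact ⟨⟨hd'.1.1, h6⟩, hd'.2⟩
        · rw [if_neg h6] at hd'
          exact absurd hd'.2 (by norm_num)
      · have h2 := hcon a b h1 (fun d h3 h4 => by
          have h5 := hd d h3 h4
          rwa [if_pos (by omega)] at h5)
        refine le_trans (card_le_card ?_) h2
        intro d hd'
        rw [mem_filter, mem_Ico] at hd' ⊢
        rw [if_pos (by omega)] at hd'
        exact hd'
    obtain ⟨a, ha, h1, h2⟩ := run_ind (fun d => if d < n then X d else 0) k hno n
    have h3 := hno a n h1
    have e1 : (range n).filter (fun d => (if d < n then X d else 0) = 1) =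
        (range n).filter (fun d => X d = 1) := by
      apply filter_congr
      intro d hd
      rw [if_pos (mem_range.1 hd)]
    have e2 : (range n).filter (fun d => 2 ≤ (if d < n then X d else 0)) =
        (range n).filter (fun d => 2 ≤ X d) := by
      apply filter_congr
      intro d hd
      rw [if_pos (mem_range.1 hd)]
    rw [e1, e2] at h2
    rw [mul_add, mul_one] at h
    omega
  set F : Finset ℕ := (Ico a b).filter (fun d => X d = 1) with hF
  obtain ⟨m, hm⟩ : ∃ m, m = F.card := ⟨_, rfl⟩
  have hkm : k + 1 ≤ m := by omega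
  set f := F.orderEmbOfFin hm.symm with hf
  have hfmem : ∀ j, f j ∈ F := fun j => F.orderEmbOfFin_mem hm.symm j
  refine ⟨fun l => f (Fin.castLE hkm l), ?_, ?_, ?_, ?_⟩
  · intro l l' hll
    exact f.strictMono (by simpa using hll)
  · intro l
    have h1 := hfmem (Fin.castLE hkm l)
    rw [hF, mem_filter, mem_Ico] at h1
    show f (Fin.castLE hkm l) < n
    omega
  · intro l
    have h1 := hfmem (Fin.castLE hkm l)
    rw [hF, mem_filter] at h1
    exact h1.2
  · intro d h1 h2 h3
    beta_reduce at h1 h2
    have h4 := hfmem (Fin.castLE hkm 0)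
    have h5 := hfmem (Fin.castLE hkm (Fin.last k))
    rw [hF, mem_filter, mem_Ico] at h4 h5
    have h6 : X d ≤ 1 := hab d (by omega) (by omega)
    have h7 : d ∈ F := by
      rw [hF, mem_filter, mem_Ico]
      exact ⟨⟨by omega, by omega⟩, by omega⟩
    have h8 : d ∈ Set.range f := by
      rw [hf, F.range_orderEmbOfFin hm.symm]
      exact h7
    obtain ⟨j, hj⟩ := h8
    have h9 : j ≤ Fin.castLE hkm (Fin.last k) := by
      rw [← f.le_iff_le, hj]
      exact h2
    have h10 : (j : ℕ) ≤ k := by
      have := Fin.le_def.1 h9
      simpa using this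
    refine ⟨⟨j, by omega⟩, ?_⟩
    show f (Fin.castLE hkm ⟨j, by omega⟩) = d
    rw [← hj]
    congr 1

end Pool.Agent.H21.PW
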