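import Pool.Agent.H21.PW.Words

/-!
Patterns of residue classes of consecutive primes. Let `k ≥ 0`, `n = 9 (k+1)^2`, `C = binom(n, k+1)`. A word
`w 0, ..., w k` of reduced classes modulo `Q` OCCURS if for some tuple `0 = h 0 < ... < h k` there are infinitely many `m`
such that `m + h 0, ..., m + h k` are consecutive primes in the classes `w 0, ..., w k` (and all `≡ s (mod L)`).

(1) Every sequence of `n` reduced classes modulo `Q` has a subsequence of `k + 1` terms which occurs.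
(2) For every `Q` at least `φ(Q)^(k+1) / C` of the `φ(Q)^(k+1)` words occur.
(3) Of any `C` pairwise coprime moduli one is such that all words occur.
(4) For some `Q₀` all words occur for every `Q` coprime to `Q₀`.
(5) For all primes `p` but fewer than `C` and all `e` all words modulo `p ^ e` occur.
-/

namespace Pool.Agent.H21.PW.DraftCW

/-- `m + h 0 < ... < m + h k` are consecutive primes -/
def Consecutive {k : ℕ} (m : ℕ) (h : Fin (k + 1) → ℕ) : Prop :=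
  StrictMono h ∧ (∀ j, (m + h j).Prime) ∧
    ∀ q : ℕ, q.Prime → m + h 0 ≤ q → q ≤ m + h (Fin.last k) → ∃ j, q = m + h j

/-- the word `w` of `k + 1` reduced classes modulo `Q` occurs -/
def Occurs (k L s Q : ℕ) (w : Fin (k + 1) → (ZMod Q)ˣ) : Prop :=
  ∃ h : Fin (k + 1) → ℕ, h 0 = 0 ∧ {m : ℕ | Consecutive m h ∧
    ∀ j, m + h j ≡ s [MOD L] ∧ ((m + h j : ℕ) : ZMod Q) = w j}.Infinite

theorem result (k L s : ℕ) (hL : 0 < L) (hs : Nat.Coprime s L) :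
    (∀ Q : ℕ, 0 < Q → Nat.Coprime Q L → ∀ c : Fin (9 * (k + 1) ^ 2) → (ZMod Q)ˣ,
      ∃ I : Fin (k + 1) → Fin (9 * (k + 1) ^ 2), StrictMono I ∧ Occurs k L s Q (c ∘ I)) ∧
    (∀ Q : ℕ, 0 < Q → Nat.Coprime Q L → Q.totient ^ (k + 1) ≤
      (9 * (k + 1) ^ 2).choose (k + 1) *
        {w : Fin (k + 1) → (ZMod Q)ˣ | Occurs k L s Q w}.ncard) ∧
    (∀ Q : Fin ((9 * (k + 1) ^ 2).choose (k + 1)) → ℕ, (∀ i, 0 < Q i) →
      (∀ i, Nat.Coprime (Q i) L) → (∀ i j, i ≠ j → Nat.Coprime (Q i) (Q j)) →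
      ∃ i, ∀ w : Fin (k + 1) → (ZMod (Q i))ˣ, Occurs k L s (Q i) w) ∧
    (∃ Q₀ : ℕ, 0 < Q₀ ∧ ∀ Q : ℕ, 0 < Q → Nat.Coprime Q Q₀ →
      ∀ w : Fin (k + 1) → (ZMod Q)ˣ, Occurs k L s Q w) ∧
    ∃ E : Finset ℕ, E.card < (9 * (k + 1) ^ 2).choose (k + 1) ∧
      ∀ p : ℕ, p.Prime → Nat.Coprime p L → p ∉ E →
        ∀ (e : ℕ) (w : Fin (k + 1) → (ZMod (p ^ e))ˣ), Occurs k L s (p ^ e) w :=
  ⟨fun Q hQ hQL c => Pool.Agent.H21.PW.occ_core k L s hL hs Q hQ hQL c,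
    fun Q hQ hQL => Pool.Agent.H21.PW.occ_count k L s hL hs Q hQ hQL,
    fun Q hQ hQL hQQ => Pool.Agent.H21.PW.occ_family k L s hL hs _ rfl Q hQ hQL hQQ,
    Pool.Agent.H21.PW.occ_adelic k L s hL hs, Pool.Agent.H21.PW.occ_primes k L s hL hs⟩

end Pool.Agent.H21.PW.DraftCW
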