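import Pool.Agent.H21.PW.Main
import Pool.Agent.H21.LP.Adel

/-!
MP_8923e7_nt, THEOREM W, final form: tuples `h`; families of moduli, almost all moduli, all primes but finitely many.
-/

namespace Pool.Agent.H21.PW

open Finset Pool.Agent.H30.CP Pool.Agent.H21.CG

/-- `n + h 0 < ... < n + h k` are consecutive primes -/
def Consec {k : ℕ} (n : ℕ) (h : Fin (k + 1) → ℕ) : Prop :=
  StrictMono h ∧ (∀ j, (n + h j).Prime) ∧
    ∀ q : ℕ, q.Prime → n + h 0 ≤ q → q ≤ n + h (Fin.last k) → ∃ j, q = n + h j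

/-- for all reduced classes `ρ 0, ..., ρ k` modulo `Q` there is a tuple `0 = h 0 < ... < h k` such that for
infinitely many `n` the numbers `n + h j` are consecutive primes, `≡ ρ j (mod Q)` and `≡ s₀ (mod L)` -/
def GoodT (k L s₀ Q : ℕ) : Prop := ∀ ρ : Fin (k + 1) → ℤ, (∀ j, IsCoprime (ρ j) (Q : ℤ)) →
  ∃ h : Fin (k + 1) → ℕ, h 0 = 0 ∧ {n : ℕ | Consec n h ∧
    ∀ j, n + h j ≡ s₀ [MOD L] ∧ ((n + h j : ℕ) : ℤ) ≡ ρ j [ZMOD Q]}.Infinite

theorem goodT_of_goodW {k L s₀ Q : ℕ} (hG : GoodW (k + 1) L s₀ Q) : GoodT k L s₀ Q := by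
  classical
  intro ρ hρ
  obtain ⟨C, hC⟩ := hG ρ hρ
  -- the tuples
  let F : ℕ → (Fin (k + 1) → Fin (C + 1)) := fun n j =>
    Fin.ofNat (C + 1) (Nat.nth Nat.Prime (n + j) - Nat.nth Nat.Prime n)
  obtain ⟨f, hf⟩ : ∃ f : Fin (k + 1) → Fin (C + 1),
      ({n : ℕ | WordAt (k + 1) L s₀ Q ρ C n} ∩ {n | F n = f}).Infinite := by
    by_contra hcon
    push Not at hcon
    apply hC
    have h1 : {n : ℕ | WordAt (k + 1) L s₀ Q ρ C n} ⊆
        ⋃ f, ({n : ℕ | WordAt (k + 1) L s₀ Q ρ C n} ∩ {n | F n = f}) := fun n hn =>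
      Set.mem_iUnion.2 ⟨F n, hn, rfl⟩
    exact (Set.finite_iUnion hcon).subset h1
  have hmono := Nat.nth_strictMono Nat.infinite_setOfPred_prime
  have hval : ∀ n ∈ {n : ℕ | WordAt (k + 1) L s₀ Q ρ C n} ∩ {n | F n = f}, ∀ j : Fin (k + 1),
      Nat.nth Nat.Prime n + (f j : ℕ) = Nat.nth Nat.Prime (n + j) := by
    rintro n ⟨hn, hn2⟩ j
    have h1 := (hn j).1
    have h2 : Nat.nth Nat.Prime n ≤ Nat.nth Nat.Prime (n + j) := hmono.monotone (by omega)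
    have h3 : (f j : ℕ) = (Nat.nth Nat.Prime (n + j) - Nat.nth Nat.Prime n) % (C + 1) := by
      rw [← show F n = f from hn2]
      rfl
    rw [Nat.mod_eq_of_lt (by omega)] at h3
    omega
  refine ⟨fun j => (f j : ℕ), ?_, ?_⟩
  · obtain ⟨n, hn⟩ := hf.nonempty
    have h1 := hval n hn 0
    have h2 : Nat.nth Nat.Prime (n + ((0 : Fin (k + 1)) : ℕ)) = Nat.nth Nat.Prime n := by
      rw [Fin.val_zero, add_zero]
    rw [h2] at h1
    show (f 0 : ℕ) = 0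
    omega
  · refine ((hf.image hmono.injective.injOn).mono ?_)
    rintro _ ⟨n, hn, rfl⟩
    refine ⟨⟨?_, ?_, ?_⟩, ?_⟩
    · intro i j hij
      have h1 := hval n hn i
      have h2 := hval n hn j
      have h3 : Nat.nth Nat.Prime (n + i) < Nat.nth Nat.Prime (n + j) := hmono (by
        have := Fin.lt_def.1 hij
        omega)
      show (f i : ℕ) < (f j : ℕ)
      omega
    · intro j
      rw [hval n hn j]
      exact Nat.prime_nth_prime _
    · intro q hq h1 h2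
      rw [hval n hn] at h1 h2
      obtain ⟨m, hm⟩ : ∃ m, Nat.nth Nat.Prime m = q := ⟨_, Nat.nth_count hq⟩
      rw [← hm] at h1 h2
      have h3 := hmono.le_iff_le.1 h1
      have h4 := hmono.le_iff_le.1 h2
      rw [Fin.val_zero, add_zero] at h3
      rw [Fin.val_last] at h4
      refine ⟨⟨m - n, by omega⟩, ?_⟩
      rw [hval n hn, ← hm]
      congr 1
      show m = n + (m - n)
      omega
    · intro j
      rw [hval n hn j]
      exact (hn.1 j).2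

theorem tuples_family (k L s₀ : ℕ) (hL : 0 < L) (hs₀ : Nat.Coprime s₀ L)
    (Q : Fin ((20 * (k + 1) ^ 2) ^ (k + 1)) → ℕ) (hQ : ∀ i, 0 < Q i)
    (hQL : ∀ i, Nat.Coprime (Q i) L) (hQQ : ∀ i j, i ≠ j → Nat.Coprime (Q i) (Q j)) :
    ∃ i, GoodT k L s₀ (Q i) := by
  obtain ⟨i, hi⟩ := words_main k L s₀ hL hs₀ _ rfl Q hQ hQL hQQ
  exact ⟨i, goodT_of_goodW hi⟩

theorem tuples_adelic (k L s₀ : ℕ) (hL : 0 < L) (hs₀ : Nat.Coprime s₀ L) :
    ∃ Q₀ : ℕ, 0 < Q₀ ∧ ∀ Q : ℕ, 0 < Q → Nat.Coprime Q Q₀ → GoodT k L s₀ Q := by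
  obtain ⟨t, ht⟩ : ∃ t, (20 * (k + 1) ^ 2) ^ (k + 1) = t + 1 :=
    ⟨(20 * (k + 1) ^ 2) ^ (k + 1) - 1, by
      have : 0 < (20 * (k + 1) ^ 2) ^ (k + 1) := by positivity
      omega⟩
  refine Pool.Agent.H21.LP.adel (fun Q => GoodT k L s₀ Q) L t hL fun Q hQ hQL hQQ => ?_
  obtain ⟨i, hi⟩ := words_main k L s₀ hL hs₀ (t + 1) ht.symm Q hQ hQL hQQ
  exact ⟨i, goodT_of_goodW hi⟩

theorem tuples_primes (k L s₀ : ℕ) (hL : 0 < L) (hs₀ : Nat.Coprime s₀ L) :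
    ∃ E : Finset ℕ, E.card < (20 * (k + 1) ^ 2) ^ (k + 1) ∧ ∀ p : ℕ, p.Prime → Nat.Coprime p L →
      p ∉ E → ∀ e : ℕ, GoodT k L s₀ (p ^ e) := by
  classical
  obtain ⟨t, ht⟩ : ∃ t, t = (20 * (k + 1) ^ 2) ^ (k + 1) := ⟨_, rfl⟩
  rw [← ht]
  set S : Set ℕ := {p | p.Prime ∧ Nat.Coprime p L ∧ ∃ e : ℕ, ¬ GoodT k L s₀ (p ^ e)} with hS
  have hfin : ∀ F : Finset ℕ, (F : Set ℕ) ⊆ S → F.card < t := by
    intro F hF
    by_contra hcon
    push Not at hcon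
    obtain ⟨G, hGF, hGc⟩ := Finset.exists_subset_card_eq hcon
    have h1 : ∀ i : Fin t, ((Finset.equivFinOfCardEq hGc).symm i).1 ∈ S := fun i =>
      hF (hGF ((Finset.equivFinOfCardEq hGc).symm i).2)
    choose e he using fun i => (h1 i).2.2
    obtain ⟨i, hi⟩ := words_main k L s₀ hL hs₀ t ht
      (fun i => ((Finset.equivFinOfCardEq hGc).symm i).1 ^ e i) (fun i => pow_pos (h1 i).1.pos _)
      (fun i => Nat.Coprime.pow_left _ (h1 i).2.1)
      (fun i j hij => by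
        refine Nat.Coprime.pow _ _ ((Nat.coprime_primes (h1 i).1 (h1 j).1).2 ?_)
        intro h
        exact hij ((Finset.equivFinOfCardEq hGc).symm.injective (Subtype.ext h)))
    exact he i (goodT_of_goodW hi)
  have hSf : S.Finite := by
    by_contra hinf
    obtain ⟨F, hF, hFc⟩ := Set.Infinite.exists_subset_card_eq hinf t
    have := hfin F hF
    omega
  refine ⟨hSf.toFinset, hfin _ (by simp), fun p hp hpL hpE e => ?_⟩
  by_contra hcon
  exact hpE (hSf.mem_toFinset.2 ⟨hp, hpL, e, hcon⟩)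

end Pool.Agent.H21.PW
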