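import Pool.Agent.H21.PW.CellM
import Pool.Agent.H21.PW.Run
import Pool.Agent.H21.LP.Crt
import Pool.Agent.H21.LP.Main
import Pool.Agent.H21.CG.Gap

/-!
MP_8923e7_nt, THEOREM W: of any `(20 (k+1)^2)^(k+1)` pairwise coprime moduli one is such that every word of `k + 1`
reduced residue classes is the word of classes of `k + 1` consecutive primes, infinitely often.
-/

namespace Pool.Agent.H21.PW

open Finset Pool.Agent.H30.CP Pool.Agent.H21.CG

/-- the `k` consecutive primes from number `n` on are within `C`, `≡ s₀ (mod L)` and in the classes `ρ` modulo `Q` -/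
def WordAt (k L s₀ Q : ℕ) (ρ : Fin k → ℤ) (C n : ℕ) : Prop :=
  ∀ j : Fin k, Nat.nth Nat.Prime (n + j) ≤ Nat.nth Nat.Prime n + C ∧
    Nat.nth Nat.Prime (n + j) ≡ s₀ [MOD L] ∧ (Nat.nth Nat.Prime (n + j) : ℤ) ≡ ρ j [ZMOD Q]

/-- every word of `k` reduced classes modulo `Q` is the word of classes of `k` consecutive primes `≡ s₀ (mod L)` -/
def GoodW (k L s₀ Q : ℕ) : Prop := ∀ ρ : Fin k → ℤ, (∀ j, IsCoprime (ρ j) (Q : ℤ)) →
  ∃ C : ℕ, {n : ℕ | WordAt k L s₀ Q ρ C n}.Infinite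

private theorem cop_of_dvd {a b n : ℤ} (h : IsCoprime a n) (hd : n ∣ b - a) : IsCoprime b n := by
  obtain ⟨t, ht⟩ := hd
  have e : b = a + n * t := by linarith
  rw [e]
  exact h.add_mul_left_left t

/-- the pointwise inequality -/
private theorem pt_ineq (k x : ℕ) : (x : ℝ) - (1 + k / 2) * ((x : ℝ) * (x - 1)) ≤
    (if x = 1 then (1 : ℝ) else 0) - k * (if 2 ≤ x then (1 : ℝ) else 0) := by
  have hk : (0 : ℝ) ≤ k := Nat.cast_nonneg k
  rcases Nat.lt_or_ge x 2 with h | h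
  · interval_cases x
    · simp
    · simp
  · rw [if_neg (by omega), if_pos h]
    have h2 : (2 : ℝ) ≤ x := by exact_mod_cast h
    have h3 : (x : ℝ) ≤ (x : ℝ) * (x - 1) := by nlinarith
    have h4 : (2 : ℝ) ≤ (x : ℝ) * (x - 1) := by linarith
    have h5 : (k : ℝ) / 2 * 2 ≤ k / 2 * ((x : ℝ) * (x - 1)) :=
      mul_le_mul_of_nonneg_left h4 (by positivity)
    linarith

/-- consecutive primes -/
private theorem nth_run (k : ℕ) (x : ℕ → ℕ) (hp : ∀ j ≤ k, (x j).Prime)
    (hlt : ∀ j < k, x j < x (j + 1))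
    (hno : ∀ j < k, ∀ r : ℕ, x j < r → r < x (j + 1) → ¬ r.Prime) :
    ∃ n, ∀ j ≤ k, Nat.nth Nat.Prime (n + j) = x j := by
  obtain ⟨n, hn⟩ : ∃ n, Nat.nth Nat.Prime n = x 0 := ⟨_, Nat.nth_count (hp 0 (Nat.zero_le _))⟩
  refine ⟨n, fun j => ?_⟩
  induction j with
  | zero =>
    intro _
    rw [add_zero]
    exact hn
  | succ j ih =>
    intro hj
    have h1 := ih (by omega)
    have h2 := gap_next h1 (hp (j + 1) hj) (hlt j (by omega)) (hno j (by omega))
    rw [← add_assoc]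
    exact h2

theorem words_main (k L s₀ : ℕ) (hL : 0 < L) (hs₀ : Nat.Coprime s₀ L) (t : ℕ)
    (ht : t = (20 * (k + 1) ^ 2) ^ (k + 1)) (Q : Fin t → ℕ) (hQ : ∀ i, 0 < Q i)
    (hQL : ∀ i, Nat.Coprime (Q i) L) (hQQ : ∀ i j, i ≠ j → Nat.Coprime (Q i) (Q j)) :
    ∃ i, GoodW (k + 1) L s₀ (Q i) := by
  classical
  by_contra hcon
  push Not at hcon
  unfold GoodW at hcon
  push Not at hcon
  choose ρ hρ hbad using hcon
  obtain ⟨n, hn⟩ : ∃ n : ℕ, n = 20 * (k + 1) ^ 2 := ⟨_, rfl⟩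
  have hnpos : 0 < n := by
    rw [hn]
    positivity
  have hcardI : Fintype.card (Fin (k + 1) → Fin n) = t := by
    rw [Fintype.card_fun, Fintype.card_fin, Fintype.card_fin, ht, hn]
  obtain ⟨ev⟩ : Nonempty ((Fin (k + 1) → Fin n) ≃ Fin t) := ⟨Fintype.equivFinOfCardEq hcardI⟩
  obtain ⟨lam, hlam⟩ : ∃ lam : ℝ, lam = 1 / (10 * (k + 2)) := ⟨_, rfl⟩
  have hk0 : (0 : ℝ) ≤ k := Nat.cast_nonneg k
  have hlam0 : 0 < lam := by
    rw [hlam]
    positivity
  have hlam1 : lam ≤ 1 := by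
    rw [hlam, div_le_one (by positivity)]
    linarith
  obtain ⟨sc, hsc, hcells⟩ := cellsM n hnpos lam hlam0 hlam1
  set K : ℕ := n * sc with hK
  set M : ℕ := L * ∏ i, Q i with hM
  have hM0 : 0 < M := Nat.mul_pos hL (Finset.prod_pos fun i _ => hQ i)
  set W : ℕ := M * K.factorial with hW
  have hW0 : 0 < W := Nat.mul_pos hM0 (Nat.factorial_pos K)
  have hW0Z : (0 : ℤ) < W := by exact_mod_cast hW0
  have hLM : L ∣ M := dvd_mul_right _ _
  have hQM : ∀ i, Q i ∣ M := fun i => dvd_mul_of_dvd_right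
    (Finset.dvd_prod_of_mem Q (mem_univ i)) L
  have hMW : M ∣ W := dvd_mul_right _ _
  have hLMz : (L : ℤ) ∣ (M : ℤ) := by exact_mod_cast hLM
  have hQMz : ∀ i, (Q i : ℤ) ∣ (M : ℤ) := fun i => by exact_mod_cast hQM i
  have hMWz : (M : ℤ) ∣ (W : ℤ) := by exact_mod_cast hMW
  choose u hu1 hu2 hu3 hu4 using fun i => Pool.Agent.H21.LP.crt_exists L t Q hQL hQQ K i
  -- the letters
  obtain ⟨lt, hlt, hltm⟩ : ∃ lt : Fin t → Fin n → ℤ, (∀ i d, ∃ l, lt i d = ρ i l) ∧
      ∀ (c : Fin (k + 1) → Fin n), Function.Injective c → ∀ l, lt (ev c) (c l) = ρ (ev c) l := by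
    refine ⟨fun i d => if h : ∃ l, ev.symm i l = d then ρ i h.choose else ρ i 0, ?_, ?_⟩
    · intro i d
      by_cases h : ∃ l, ev.symm i l = d
      · exact ⟨h.choose, dif_pos h⟩
      · exact ⟨0, dif_neg h⟩
    · intro c hc l
      have h : ∃ l', ev.symm (ev c) l' = c l := ⟨l, by rw [Equiv.symm_apply_apply]⟩
      show (if h : ∃ l', ev.symm (ev c) l' = c l then ρ (ev c) h.choose else ρ (ev c) 0) = _
      rw [dif_pos h]
      have h2 := h.choose_spec
      have h3 : ev.symm (ev c) h.choose = c h.choose := congrFun (ev.symm_apply_apply c) _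
      exact congrArg (ρ (ev c)) (hc (h3.symm.trans h2))
  -- the positions
  obtain ⟨bs, hbs⟩ : ∃ bs : Fin n → ℤ, ∀ d, bs d = ∑ i, u i * lt i d := ⟨_, fun _ => rfl⟩
  obtain ⟨Rb, hRb⟩ : ∃ Rb : ℕ, ∀ d, |bs d| ≤ Rb := by
    refine ⟨∑ d, (bs d).natAbs, fun d => ?_⟩
    have h1 : (bs d).natAbs ≤ ∑ d, (bs d).natAbs :=
      Finset.single_le_sum (f := fun d => (bs d).natAbs) (fun _ _ => Nat.zero_le _)
        (Finset.mem_univ d)
    rw [Int.abs_eq_natAbs]
    exact_mod_cast h1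
  obtain ⟨y, hy⟩ : ∃ y : Fin n → ℤ, ∀ d, y d = bs d + (W : ℤ) * ((sc + 2 * Rb + 1 : ℕ) * (d : ℕ)) :=
    ⟨_, fun _ => rfl⟩
  obtain ⟨V, hV⟩ : ∃ V : Fin n → Finset ℤ, ∀ d, V d =
      (range sc).image (fun i : ℕ => y d + (W : ℤ) * (i : ℤ)) := ⟨_, fun _ => rfl⟩
  have hVmem : ∀ d, ∀ h ∈ V d, ∃ i < sc, h = y d + (W : ℤ) * (i : ℤ) := by
    intro d h hh
    rw [hV, mem_image] at hh
    obtain ⟨i, hi, rfl⟩ := hh
    exact ⟨i, mem_range.1 hi, rfl⟩
  have hVord : ∀ d d' : Fin n, d < d' → ∀ h ∈ V d, ∀ h' ∈ V d', h < h' := by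
    intro d d' hdd h hh h' hh'
    obtain ⟨i, hi, rfl⟩ := hVmem d h hh
    obtain ⟨i', hi', rfl⟩ := hVmem d' h' hh'
    rw [hy, hy]
    have h1 := abs_le.1 (hRb d)
    have h2 := abs_le.1 (hRb d')
    obtain ⟨g, hg⟩ : ∃ g : ℕ, (d' : ℕ) = d + 1 + g := ⟨d' - d - 1, by
      have := Fin.lt_def.1 hdd
      omega⟩
    rw [hg]
    push_cast
    have h3 : (i : ℤ) + 1 ≤ sc := by exact_mod_cast hi
    have h4 : (0 : ℤ) ≤ i' := Int.natCast_nonneg _
    have h5 : (0 : ℤ) ≤ g := Int.natCast_nonneg _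
    have h6 : (0 : ℤ) ≤ Rb := Int.natCast_nonneg _
    have h7 : (1 : ℤ) ≤ W := hW0Z
    have h8 : (0 : ℤ) ≤ sc := Int.natCast_nonneg _
    have h9 : (W : ℤ) * i + W ≤ W * sc := by nlinarith
    have h10 : (2 * Rb : ℤ) ≤ W * (2 * Rb) := by nlinarith
    have h11 : (0 : ℤ) ≤ W * i' := by positivity
    have h12 : (0 : ℤ) ≤ (W : ℤ) * (((sc : ℤ) + 2 * Rb + 1) * g) := by positivity
    nlinarith
  have hVf : ∀ d, ∀ h ∈ V d, (W : ℤ) ∣ h - ∑ i, u i * lt i d := by
    intro d h hh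
    obtain ⟨i, hi, rfl⟩ := hVmem d h hh
    rw [hy, hbs]
    have e : ∑ i, u i * lt i d + (W : ℤ) * ((sc + 2 * Rb + 1 : ℕ) * (d : ℕ)) + W * i -
        ∑ i, u i * lt i d = W * ((sc + 2 * Rb + 1 : ℕ) * (d : ℕ) + i) := by ring
    rw [e]
    exact dvd_mul_right _ _
  have hfL : ∀ d, ∀ h ∈ V d, (L : ℤ) ∣ h := by
    intro d h hh
    have h1 : (L : ℤ) ∣ ∑ i, u i * lt i d :=
      Finset.dvd_sum fun i _ => dvd_mul_of_dvd_left (hu3 i) _
    have h2 := dvd_add ((hLMz.trans hMWz).trans (hVf d h hh)) h1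
    have e : h - ∑ i, u i * lt i d + ∑ i, u i * lt i d = h := by ring
    rwa [e] at h2
  have hfQ : ∀ d, ∀ h ∈ V d, ∀ i, (Q i : ℤ) ∣ h - lt i d := by
    intro d h hh i
    have h1 : (Q i : ℤ) ∣ ∑ j, u j * lt j d - lt i d := by
      have e : ∑ j, u j * lt j d - lt i d = (u i - 1) * lt i d +
          ∑ j ∈ univ.erase i, u j * lt j d := by
        rw [← Finset.add_sum_erase univ (fun j => u j * lt j d) (mem_univ i)]
        ring
      rw [e]
      refine dvd_add (dvd_mul_of_dvd_left (hu1 i) _) (Finset.dvd_sum fun j hj => ?_)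
      exact dvd_mul_of_dvd_left (hu2 j i (fun h => (mem_erase.1 hj).1 h.symm)) _
    have h2 := dvd_add (((hQMz i).trans hMWz).trans (hVf d h hh)) h1
    have e : h - ∑ j, u j * lt j d + (∑ j, u j * lt j d - lt i d) = h - lt i d := by
      ring
    rwa [e] at h2
  -- the class of `N`
  set Cz : ℤ := s₀ + ∑ i, (0 - s₀) * u i with hCz
  have hCL : (L : ℤ) ∣ Cz - s₀ := by
    have e : Cz - s₀ = ∑ i, (0 - (s₀ : ℤ)) * u i := by
      rw [hCz]
      ring
    rw [e]
    exact Finset.dvd_sum fun i _ => dvd_mul_of_dvd_right (hu3 i) _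
  have hCQ : ∀ i, (Q i : ℤ) ∣ Cz := by
    intro i
    have e : Cz = (0 - s₀) * (u i - 1) + ∑ j ∈ univ.erase i, (0 - (s₀ : ℤ)) * u j := by
      rw [hCz, ← Finset.add_sum_erase univ (fun j => (0 - (s₀ : ℤ)) * u j) (mem_univ i)]
      ring
    rw [e]
    refine dvd_add (dvd_mul_of_dvd_right (hu1 i) _) (Finset.dvd_sum fun j hj => ?_)
    exact dvd_mul_of_dvd_right (hu2 j i (fun h => (mem_erase.1 hj).1 h.symm)) _
  have hM0Z : (0 : ℤ) < M := by exact_mod_cast hM0
  obtain ⟨c₀, hc₀⟩ : ∃ c₀ : ℕ, (c₀ : ℤ) = Cz % M :=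
    ⟨(Cz % M).toNat, Int.toNat_of_nonneg (Int.emod_nonneg _ hM0Z.ne')⟩
  have hc₀M : (M : ℤ) ∣ c₀ - Cz := by
    rw [hc₀]
    have h1 : (M : ℤ) ∣ Cz - Cz % M := Int.dvd_self_sub_emod
    have e : Cz % M - Cz = -(Cz - Cz % M) := by ring
    rw [e]
    exact (dvd_neg).2 h1
  have hc₀L : (L : ℤ) ∣ c₀ - s₀ := by
    have h1 := dvd_add (hLMz.trans hc₀M) hCL
    have e : (c₀ : ℤ) - Cz + (Cz - s₀) = c₀ - s₀ := by ring
    rwa [e] at h1
  have hc₀Q : ∀ i, (Q i : ℤ) ∣ c₀ := by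
    intro i
    have h1 := dvd_add ((hQMz i).trans hc₀M) (hCQ i)
    have e : (c₀ : ℤ) - Cz + Cz = c₀ := by ring
    rwa [e] at h1
  have hcop : ∀ d, ∀ h ∈ V d, IsCoprime ((c₀ : ℤ) + h) (M : ℤ) := by
    intro d h hh
    rw [hM]
    push_cast
    refine IsCoprime.mul_right ?_ (IsCoprime.prod_right fun i _ => ?_)
    · refine cop_of_dvd (Nat.isCoprime_iff_coprime.2 hs₀) ?_
      have h1 := dvd_add hc₀L (hfL d h hh)
      have e : (c₀ : ℤ) - s₀ + h = c₀ + h - s₀ := by ring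
      rwa [e] at h1
    · obtain ⟨l, hl⟩ := hlt i d
      refine cop_of_dvd (hρ i l) ?_
      have h1 := dvd_add (hc₀Q i) (hfQ d h hh i)
      rw [hl] at h1
      have e : (c₀ : ℤ) + (h - ρ i l) = c₀ + h - ρ i l := by ring
      rwa [e] at h1
  have hVcard : ∀ d, (V d).card = sc := by
    intro d
    rw [hV, card_image_of_injective, card_range]
    intro i j hij
    have h1 : y d + (W : ℤ) * (i : ℤ) = y d + (W : ℤ) * (j : ℤ) := hij
    exact_mod_cast mul_left_cancel₀ hW0Z.ne' (add_left_cancel h1)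
  have hVsum : ∑ d, (V d).card ≤ K := by
    rw [Finset.sum_congr rfl fun d _ => hVcard d, sum_const, card_univ, smul_eq_mul,
      Fintype.card_fin]
  have hVdisj : ∀ d d' : Fin n, d ≠ d' → Disjoint (V d) (V d') := by
    intro d d' hdd
    rw [disjoint_left]
    intro h hh hh'
    rcases lt_or_gt_of_ne hdd with h1 | h1
    · exact lt_irrefl _ (hVord d d' h1 h hh h hh')
    · exact lt_irrefl _ (hVord d' d h1 h hh' h hh)
  have hVadm : ∀ p : ℕ, p.Prime → ∃ a : ℤ, ∀ d, ∀ h ∈ V d, ¬ (p : ℤ) ∣ a + h := by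
    intro p hp
    by_cases hpM : p ∣ M
    · refine ⟨c₀, fun d h hh hdv => ?_⟩
      have hpMz : (p : ℤ) ∣ (M : ℤ) := by exact_mod_cast hpM
      have h1 := (hcop d h hh).isUnit_of_dvd' hdv hpMz
      have h2 : p = 1 := by exact_mod_cast Int.isUnit_iff_natAbs_eq.1 h1
      exact hp.one_lt.ne' h2
    · by_cases hpK : p ≤ K
      · refine ⟨1, fun d h hh hdv => ?_⟩
        have hpW : (p : ℤ) ∣ (W : ℤ) := by
          have h2 : p ∣ W := dvd_mul_of_dvd_right (Nat.dvd_factorial hp.pos hpK) M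
          exact_mod_cast h2
        have h1 : (p : ℤ) ∣ ∑ i, u i * lt i d :=
          Finset.dvd_sum fun i _ => dvd_mul_of_dvd_left
            (hu4 i p hp hpK (fun h => hpM (h.trans (hQM i)))) _
        have h2 := dvd_add (hpW.trans (hVf d h hh)) h1
        have e : h - ∑ i, u i * lt i d + ∑ i, u i * lt i d = h := by ring
        rw [e] at h2
        have h4 : (p : ℤ) ∣ 1 := (dvd_add_left h2).1 hdv
        have h5 : p ∣ 1 := by exact_mod_cast h4
        exact hp.one_lt.ne' (Nat.dvd_one.1 h5)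
      · exact Pool.Agent.H21.LP.adm_big K V hVsum p hp hpK
  -- a bound for the shifts
  obtain ⟨R, hR⟩ : ∃ R : ℕ, ∀ d, ∀ h ∈ V d, |h| ≤ R := by
    refine ⟨∑ d, ∑ h ∈ V d, h.natAbs, fun d h hh => ?_⟩
    have h1 : h.natAbs ≤ ∑ h ∈ V d, h.natAbs :=
      Finset.single_le_sum (f := fun h : ℤ => h.natAbs) (fun _ _ => Nat.zero_le _) hh
    have h2 : ∑ h ∈ V d, h.natAbs ≤ ∑ d, ∑ h ∈ V d, h.natAbs :=
      Finset.single_le_sum (f := fun d => ∑ h ∈ V d, h.natAbs) (fun _ _ => Nat.zero_le _)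
        (Finset.mem_univ d)
    rw [Int.abs_eq_natAbs]
    exact_mod_cast h1.trans h2
  -- from some number on there are no bad words
  choose B hB using fun i => (hbad i (2 * R)).bddAbove
  obtain ⟨N1, hN1⟩ : ∃ N1 : ℕ, ∀ i, Nat.nth Nat.Prime (B i + 1) ≤ N1 := by
    refine ⟨∑ i, Nat.nth Nat.Prime (B i + 1), fun i => ?_⟩
    exact Finset.single_le_sum (f := fun i => Nat.nth Nat.Prime (B i + 1))
      (fun _ _ => Nat.zero_le _) (Finset.mem_univ i)
  obtain ⟨T, μ, hT, hμ, hsum, hmom⟩ := hcells (Fin n) V (Fintype.card_fin n) hVcard hVdisj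
    hVadm M c₀ hM0 hcop R (N1 + R)
  -- the number of primes in the cells
  obtain ⟨X, hX⟩ : ∃ X : ℕ → Fin n → ℕ, ∀ N d, X N d = ((V d).filter (fun b => PP N b)).card :=
    ⟨_, fun _ _ => rfl⟩
  simp only [← hX] at hmom
  -- no long run
  have hkey : ∀ N ∈ T, ((univ.filter (fun d => X N d = 1)).card : ℝ) -
      k * ((univ.filter (fun d => 2 ≤ X N d)).card : ℝ) ≤ k := by
    intro N hN
    obtain ⟨hN1', hNc, hex⟩ := hT N hN
    by_contra hcon2
    push Not at hcon2
    have hcon3 : k * ((univ.filter (fun d : Fin n => 2 ≤ X N d)).card + 1) <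
        (univ.filter (fun d : Fin n => X N d = 1)).card := by
      have h1 : (k : ℝ) * (((univ.filter (fun d : Fin n => 2 ≤ X N d)).card : ℝ) + 1) <
          ((univ.filter (fun d : Fin n => X N d = 1)).card : ℝ) := by linarith
      exact_mod_cast h1
    obtain ⟨X', hX'⟩ : ∃ X' : ℕ → ℕ, ∀ d : Fin n, X' d = X N d :=
      ⟨fun d => if h : d < n then X N ⟨d, h⟩ else 0, fun d => dif_pos d.2⟩
    have hcnt : ∀ P : ℕ → Prop, ∀ _ : DecidablePred P,
        ((range n).filter (fun d => P (X' d))).card =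
          (univ.filter (fun d : Fin n => P (X N d))).card := by
      intro P _
      rw [← Finset.card_map Fin.valEmbedding]
      congr 1
      ext d
      rw [mem_filter, mem_map, mem_range]
      constructor
      · rintro ⟨h1, h2⟩
        refine ⟨⟨d, h1⟩, ?_, rfl⟩
        rw [mem_filter]
        refine ⟨mem_univ _, ?_⟩
        rw [← hX']
        exact h2
      · rintro ⟨d', h1, rfl⟩
        rw [mem_filter, ← hX'] at h1
        exact ⟨d'.2, h1.2⟩
    obtain ⟨c', hc1, hc2, hc3, hc4⟩ := run_exists n k X' (by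
      rw [hcnt (fun x => 2 ≤ x) inferInstance, hcnt (fun x => x = 1) inferInstance]
      exact hcon3)
    obtain ⟨c, hc⟩ : ∃ c : Fin (k + 1) → Fin n, ∀ l, ((c l : Fin n) : ℕ) = c' l :=
      ⟨fun l => ⟨c' l, hc2 l⟩, fun _ => rfl⟩
    have hcmono : StrictMono c := by
      intro l l' hll
      rw [Fin.lt_def, hc, hc]
      exact hc1 hll
    have hc3' : ∀ l, X N (c l) = 1 := by
      intro l
      rw [← hX', hc]
      exact hc3 l
    have hc4' : ∀ d : Fin n, c 0 ≤ d → d ≤ c (Fin.last k) → X N d ≠ 0 → ∃ l, c l = d := by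
      intro d h1 h2 h3
      obtain ⟨l, hl⟩ := hc4 d (by rw [← hc]; exact h1) (by rw [← hc]; exact h2)
        (by rw [hX']; exact h3)
      exact ⟨l, Fin.ext (by rw [hc]; exact hl)⟩
    -- the primes
    have hb : ∀ l, ∃ b : ℤ, (V (c l)).filter (fun b => PP N b) = {b} := by
      intro l
      have h1 := hc3' l
      rw [hX] at h1
      exact card_eq_one.1 h1
    choose b hb using hb
    have hbV : ∀ l, b l ∈ V (c l) ∧ PP N (b l) := by
      intro l
      have h1 : b l ∈ (V (c l)).filter (fun b => PP N b) := by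
        rw [hb l]
        exact mem_singleton_self _
      exact mem_filter.1 h1
    have hbu : ∀ l, ∀ z ∈ V (c l), PP N z → z = b l := by
      intro l z hz hz'
      have h1 : z ∈ (V (c l)).filter (fun b => PP N b) := mem_filter.2 ⟨hz, hz'⟩
      rw [hb l] at h1
      exact mem_singleton.1 h1
    have hbmono : ∀ l l', l < l' → b l < b l' := fun l l' hll =>
      hVord _ _ (hcmono hll) _ (hbV l).1 _ (hbV l').1
    have hbR : ∀ l, |b l| ≤ R := fun l => hR _ _ (hbV l).1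
    have hNbig : (N1 : ℤ) + R < N := by exact_mod_cast hN1'
    obtain ⟨x, hx⟩ : ∃ x : ℕ → ℕ, ∀ l : Fin (k + 1), x l = ((N : ℤ) + b l).toNat :=
      ⟨fun j => if h : j < k + 1 then ((N : ℤ) + b ⟨j, h⟩).toNat else 0, fun l => dif_pos l.2⟩
    have hxz : ∀ l : Fin (k + 1), ((x l : ℕ) : ℤ) = N + b l := by
      intro l
      rw [hx]
      have h1 := abs_le.1 (hbR l)
      have h2 : (0 : ℤ) ≤ N1 := Int.natCast_nonneg _
      exact Int.toNat_of_nonneg (by linarith)
    obtain ⟨m, hm⟩ := nth_run k x (by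
        intro j hj
        have h1 := hx ⟨j, by omega⟩
        rw [show ((⟨j, by omega⟩ : Fin (k + 1)) : ℕ) = j from rfl] at h1
        rw [h1]
        exact (hbV ⟨j, by omega⟩).2)
      (by
        intro j hj
        have h1 := hxz ⟨j, by omega⟩
        have h2 := hxz ⟨j + 1, by omega⟩
        have h3 := hbmono ⟨j, by omega⟩ ⟨j + 1, by omega⟩ (by
          rw [Fin.lt_def]
          exact Nat.lt_succ_self j)
        simp only at h1 h2
        omega)
      (by
        intro j hj r hr1 hr2 hr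
        have h1 := hxz ⟨j, by omega⟩
        have h2 := hxz ⟨j + 1, by omega⟩
        simp only at h1 h2
        have hz : PP N ((r : ℤ) - N) := by
          unfold PP
          rw [add_sub_cancel, Int.toNat_natCast]
          exact hr
        have h3 := abs_le.1 (hbR ⟨j, by omega⟩)
        have h4 := abs_le.1 (hbR ⟨j + 1, by omega⟩)
        obtain ⟨d, hd⟩ := hex ((r : ℤ) - N) (by
          rw [abs_le]
          constructor <;> omega) hz
        -- the position of the cell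
        have h5 : c ⟨j, by omega⟩ ≤ d := by
          by_contra h6
          push Not at h6
          have h7 := hVord _ _ h6 _ hd _ (hbV ⟨j, by omega⟩).1
          omega
        have h6 : d ≤ c ⟨j + 1, by omega⟩ := by
          by_contra h7
          push Not at h7
          have h8 := hVord _ _ h7 _ (hbV ⟨j + 1, by omega⟩).1 _ hd
          omega
        obtain ⟨l, hl⟩ := hc4' d ((hcmono.monotone (Fin.zero_le _)).trans h5)
          (h6.trans (hcmono.monotone (Fin.le_last _))) (by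
            rw [hX]
            exact (card_pos.2 ⟨_, mem_filter.2 ⟨hd, hz⟩⟩).ne')
        subst hl
        have h7 := hbu l _ hd hz
        have h8 : (⟨j, by omega⟩ : Fin (k + 1)) ≤ l := hcmono.le_iff_le.1 h5
        have h9 : l ≤ (⟨j + 1, by omega⟩ : Fin (k + 1)) := hcmono.le_iff_le.1 h6
        rw [Fin.le_def] at h8 h9
        simp only at h8 h9
        rcases Nat.eq_or_lt_of_le h8 with h10 | h10
        · have h11 : l = ⟨j, by omega⟩ := Fin.ext h10.symm
          rw [h11] at h7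
          omega
        · have h11 : l = ⟨j + 1, by omega⟩ := Fin.ext (le_antisymm h9 h10)
          rw [h11] at h7
          omega)
    -- the bad word
    have hword : WordAt (k + 1) L s₀ (Q (ev c)) (ρ (ev c)) (2 * R) m := by
      intro l
      have h1 : Nat.nth Nat.Prime (m + l) = x l := hm l (by omega)
      have h2 : Nat.nth Nat.Prime m = x (0 : Fin (k + 1)) := by
        have := hm 0 (Nat.zero_le _)
        rw [add_zero] at this
        exact this
      have h3 := hxz l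
      have h4 := hxz 0
      have h5 := abs_le.1 (hbR l)
      have h6 := abs_le.1 (hbR 0)
      have hNM : (M : ℤ) ∣ N - c₀ := by
        have h5 : (c₀ : ℤ) ≡ (N : ℤ) [ZMOD M] := (Int.natCast_modEq_iff.2 hNc).symm
        exact (Int.modEq_iff_dvd).1 h5
      refine ⟨?_, ?_, ?_⟩
      · rw [h1, h2]
        omega
      · rw [h1, ← Int.natCast_modEq_iff, h3, Int.modEq_comm, Int.modEq_iff_dvd]
        have h7 := dvd_add (dvd_add (hLMz.trans hNM) hc₀L) (hfL _ _ (hbV l).1)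
        have e : (N : ℤ) - c₀ + (c₀ - s₀) + b l = N + b l - s₀ := by ring
        rwa [e] at h7
      · rw [h1, h3, Int.modEq_comm, Int.modEq_iff_dvd]
        have h7 := dvd_add (dvd_add ((hQMz (ev c)).trans hNM) (hc₀Q (ev c)))
          (hfQ _ _ (hbV l).1 (ev c))
        rw [hltm c hcmono.injective l] at h7
        have e : (N : ℤ) - c₀ + c₀ + (b l - ρ (ev c) l) = N + b l - ρ (ev c) l := by ring
        rwa [e] at h7
    have h1 : m ≤ B (ev c) := hB (ev c) hword
    have h2 : Nat.nth Nat.Prime m ≤ Nat.nth Nat.Prime (B (ev c) + 1) :=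
      (Nat.nth_strictMono Nat.infinite_setOfPred_prime).monotone (by omega)
    have h3 := hN1 (ev c)
    have h4 : Nat.nth Nat.Prime m = x (0 : Fin (k + 1)) := by
      have := hm 0 (Nat.zero_le _)
      rw [add_zero] at this
      exact this
    have h5 := hxz 0
    have h6 := abs_le.1 (hbR 0)
    omega
  -- expectation
  have h1 : ∑ N ∈ T, μ N * ∑ d, ((X N d : ℝ) - (1 + k / 2) * ((X N d : ℝ) * (X N d - 1))) ≤ k := by
    calc ∑ N ∈ T, μ N * ∑ d, ((X N d : ℝ) - (1 + k / 2) * ((X N d : ℝ) * (X N d - 1))) ≤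
        ∑ N ∈ T, μ N * (k : ℝ) := by
          refine Finset.sum_le_sum fun N hN => ?_
          refine mul_le_mul_of_nonneg_left ?_ (hμ N)
          refine le_trans (Finset.sum_le_sum fun d _ => pt_ineq k (X N d)) ?_
          refine le_trans (le_of_eq ?_) (hkey N hN)
          rw [Finset.sum_sub_distrib, ← Finset.mul_sum, Finset.sum_boole, Finset.sum_boole]
      _ = k := by rw [← Finset.sum_mul, hsum, one_mul]
  have h2 : ∑ N ∈ T, μ N * ∑ d, ((X N d : ℝ) - (1 + k / 2) * ((X N d : ℝ) * (X N d - 1))) =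
      ∑ d, (∑ N ∈ T, μ N * (X N d : ℝ) -
        (1 + k / 2) * ∑ N ∈ T, μ N * ((X N d : ℝ) * (X N d - 1))) := by
    simp_rw [Finset.mul_sum]
    rw [Finset.sum_comm]
    refine Finset.sum_congr rfl fun d _ => ?_
    rw [← Finset.sum_sub_distrib]
    refine Finset.sum_congr rfl fun N _ => ?_
    ring
  have h3 : ∑ _d : Fin n, (199 / 200 * lam - (1 + k / 2) * (5 * lam ^ 2)) ≤
      ∑ d, (∑ N ∈ T, μ N * (X N d : ℝ) -
        (1 + k / 2) * ∑ N ∈ T, μ N * ((X N d : ℝ) * (X N d - 1))) := by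
    refine Finset.sum_le_sum fun d _ => ?_
    obtain ⟨h4, h5⟩ := hmom d
    have h6 : (0 : ℝ) ≤ 1 + k / 2 := by positivity
    have h7 := mul_le_mul_of_nonneg_left h5 h6
    linarith
  rw [sum_const, card_univ, Fintype.card_fin, nsmul_eq_mul] at h3
  have h4 : (n : ℝ) * (199 / 200 * lam - (1 + k / 2) * (5 * lam ^ 2)) ≤ k := by linarith
  have h5 : 199 / 200 * lam - (1 + (k : ℝ) / 2) * (5 * lam ^ 2) = (149 / 200) * lam := by
    have h6 : (1 + (k : ℝ) / 2) * (5 * lam ^ 2) = lam / 4 := by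
      rw [hlam]
      field_simp
      ring
    rw [h6]
    ring
  rw [h5] at h4
  have h6 : (n : ℝ) = 20 * (k + 1) ^ 2 := by
    rw [hn]
    push_cast
    ring
  rw [h6, hlam] at h4
  have h7 : 20 * ((k : ℝ) + 1) ^ 2 * (149 / 200 * (1 / (10 * (k + 2)))) =
      149 / 100 * ((k + 1) ^ 2 / (k + 2)) := by
    field_simp
    ring
  rw [h7] at h4
  have h8 : (k : ℝ) * (k + 2) < (k + 1) ^ 2 := by nlinarith
  have h9 : (k : ℝ) < (k + 1) ^ 2 / (k + 2) := by
    rw [lt_div_iff₀ (by positivity)]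
    exact h8
  have h10 : (0 : ℝ) ≤ (k + 1) ^ 2 / (k + 2) := by positivity
  linarith

end Pool.Agent.H21.PW
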