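import Pool.Agent.H21.PW.Core
import Pool.Agent.H21.LP.Adel

/-!
MP_8923e7_nt, THEOREM W, final form, for tuples and units modulo `Q`: every sequence of `9 (k+1)^2` reduced classes has a
subsequence of `k + 1` terms which occurs; a positive proportion of all words occurs for every modulus; all words occur
for one of any `binom(9 (k+1)^2, k+1)` pairwise coprime moduli, for all moduli prime to some `Q₀`, and for all primes
but finitely many.
-/

namespace Pool.Agent.H21.PW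

open Finset Pool.Agent.H30.CP Pool.Agent.H21.CG

/-- `n + h 0 < ... < n + h k` are consecutive primes -/
def Consq {k : ℕ} (n : ℕ) (h : Fin (k + 1) → ℕ) : Prop :=
  StrictMono h ∧ (∀ j, (n + h j).Prime) ∧
    ∀ q : ℕ, q.Prime → n + h 0 ≤ q → q ≤ n + h (Fin.last k) → ∃ j, q = n + h j

/-- the word `w` of `k + 1` reduced classes modulo `Q` occurs -/
def Occ (k L s Q : ℕ) (w : Fin (k + 1) → (ZMod Q)ˣ) : Prop :=
  ∃ h : Fin (k + 1) → ℕ, h 0 = 0 ∧ {n : ℕ | Consq n h ∧
    ∀ j, n + h j ≡ s [MOD L] ∧ ((n + h j : ℕ) : ZMod Q) = w j}.Infinite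

theorem occ_of_word {k L s Q : ℕ} {w : Fin (k + 1) → (ZMod Q)ˣ} {ρ : Fin (k + 1) → ℤ}
    (hw : ∀ j, ((ρ j : ℤ) : ZMod Q) = w j)
    (hG : ∃ C : ℕ, {m : ℕ | WordAt (k + 1) L s Q ρ C m}.Infinite) : Occ k L s Q w := by
  classical
  obtain ⟨C, hC⟩ := hG
  -- the tuples
  let F : ℕ → (Fin (k + 1) → Fin (C + 1)) := fun n j =>
    Fin.ofNat (C + 1) (Nat.nth Nat.Prime (n + j) - Nat.nth Nat.Prime n)
  obtain ⟨f, hf⟩ : ∃ f : Fin (k + 1) → Fin (C + 1),
      ({n : ℕ | WordAt (k + 1) L s Q ρ C n} ∩ {n | F n = f}).Infinite := by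
    by_contra hcon
    push Not at hcon
    apply hC
    have h1 : {n : ℕ | WordAt (k + 1) L s Q ρ C n} ⊆
        ⋃ f, ({n : ℕ | WordAt (k + 1) L s Q ρ C n} ∩ {n | F n = f}) := fun n hn =>
      Set.mem_iUnion.2 ⟨F n, hn, rfl⟩
    exact (Set.finite_iUnion hcon).subset h1
  have hmono := Nat.nth_strictMono Nat.infinite_setOfPred_prime
  have hval : ∀ n ∈ {n : ℕ | WordAt (k + 1) L s Q ρ C n} ∩ {n | F n = f}, ∀ j : Fin (k + 1),
      Nat.nth Nat.Prime n + (f j : ℕ) = Nat.nth Nat.Prime (n + j) := by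
    rintro n ⟨hn, hn2⟩ j
    have h1 := (hn j).1
    have h2 : Nat.nth Nat.Prime n ≤ Nat.nth Nat.Prime (n + j) := hmono.monotone (by omega)
    have h3 : (f j : ℕ) = (Nat.nth Nat.Prime (n + j) - Nat.nth Nat.Prime n) % (C + 1) := by
      rw [← show F n = f from hn2]
      rfl
    rw [Nat.mod_eq_of_lt (by omega)] at h3
    omega
  refine ⟨fun j => (f j : ℕ), ?_, ?_⟩
  · obtain ⟨n, hn⟩ := hf.nonempty
    have h1 := hval n hn 0
    have h2 : Nat.nth Nat.Prime (n + ((0 : Fin (k + 1)) : ℕ)) = Nat.nth Nat.Prime n := by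
      rw [Fin.val_zero, add_zero]
    rw [h2] at h1
    show (f 0 : ℕ) = 0
    omega
  · refine ((hf.image hmono.injective.injOn).mono ?_)
    rintro _ ⟨n, hn, rfl⟩
    refine ⟨⟨?_, ?_, ?_⟩, ?_⟩
    · intro i j hij
      have h1 := hval n hn i
      have h2 := hval n hn j
      have h3 : Nat.nth Nat.Prime (n + i) < Nat.nth Nat.Prime (n + j) := hmono (by
        have := Fin.lt_def.1 hij
        omega)
      show (f i : ℕ) < (f j : ℕ)
      omega
    · intro j
      rw [hval n hn j]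
      exact Nat.prime_nth_prime _
    · intro q hq h1 h2
      rw [hval n hn] at h1 h2
      obtain ⟨m, hm⟩ : ∃ m, Nat.nth Nat.Prime m = q := ⟨_, Nat.nth_count hq⟩
      rw [← hm] at h1 h2
      have h3 := hmono.le_iff_le.1 h1
      have h4 := hmono.le_iff_le.1 h2
      rw [Fin.val_zero, add_zero] at h3
      rw [Fin.val_last] at h4
      refine ⟨⟨m - n, by omega⟩, ?_⟩
      rw [hval n hn, ← hm]
      congr 1
      show m = n + (m - n)
      omega
    · intro j
      rw [hval n hn j]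
      obtain ⟨-, h2, h3⟩ := hn.1 j
      refine ⟨h2, ?_⟩
      rw [← hw j]
      have h4 := (ZMod.intCast_eq_intCast_iff _ _ Q).2 h3
      rw [← h4]
      push_cast
      rfl

/-- every sequence of `9 (k+1)^2` reduced classes modulo `Q` has a subsequence of `k + 1` terms which occurs -/
theorem occ_core (k L s : ℕ) (hL : 0 < L) (hs : Nat.Coprime s L) (Q : ℕ) (hQ : 0 < Q)
    (hQL : Nat.Coprime Q L) (c : Fin (9 * (k + 1) ^ 2) → (ZMod Q)ˣ) :
    ∃ I : Fin (k + 1) → Fin (9 * (k + 1) ^ 2), StrictMono I ∧ Occ k L s Q (c ∘ I) := by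
  haveI : NeZero Q := ⟨hQ.ne'⟩
  obtain ⟨I, hI, hC⟩ := words_core k L s hL hs (9 * (k + 1) ^ 2) rfl Q hQ hQL
    (fun d => (((c d : ZMod Q).val : ℕ) : ℤ)) (fun d =>
      Nat.isCoprime_iff_coprime.2 (ZMod.val_coe_unit_coprime (c d)))
  refine ⟨I, hI, occ_of_word (fun j => ?_) hC⟩
  rw [Int.cast_natCast, ZMod.natCast_zmod_val]
  rfl

/-- a positive proportion of all words occurs, for every modulus -/
theorem occ_count (k L s : ℕ) (hL : 0 < L) (hs : Nat.Coprime s L) (Q : ℕ) (hQ : 0 < Q)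
    (hQL : Nat.Coprime Q L) :
    Q.totient ^ (k + 1) ≤ (9 * (k + 1) ^ 2).choose (k + 1) *
      {w : Fin (k + 1) → (ZMod Q)ˣ | Occ k L s Q w}.ncard := by
  classical
  haveI : NeZero Q := ⟨hQ.ne'⟩
  obtain ⟨n, hn⟩ : ∃ n : ℕ, n = 9 * (k + 1) ^ 2 := ⟨_, rfl⟩
  have hcore := occ_core k L s hL hs Q hQ hQL
  rw [← hn] at hcore ⊢
  have hkn : k + 1 ≤ n := by
    rw [hn]
    nlinarith
  obtain ⟨φ, hφ⟩ : ∃ φ : ℕ, φ = Q.totient := ⟨_, rfl⟩
  rw [← hφ]
  have hU : Fintype.card (ZMod Q)ˣ = φ := by rw [hφ, ZMod.card_units_eq_totient]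
  have hφ0 : 0 < φ := by
    rw [hφ]
    exact Nat.totient_pos.2 hQ
  set Ws : Finset (Fin (k + 1) → (ZMod Q)ˣ) := univ.filter (fun w => Occ k L s Q w) with hWs
  have hnc : {w : Fin (k + 1) → (ZMod Q)ˣ | Occ k L s Q w}.ncard = Ws.card := by
    rw [← Set.ncard_coe_finset]
    congr 1
    ext w
    rw [hWs]
    simp
  rw [hnc]
  -- the set of maps which give an occurring word on `S`
  let A : Finset (Fin n) → Finset (Fin n → (ZMod Q)ˣ) := fun S =>
    univ.filter (fun c => ∃ hS : S.card = k + 1, Occ k L s Q (c ∘ S.orderEmbOfFin hS))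
  have hcover : (univ : Finset (Fin n → (ZMod Q)ˣ)) ⊆
      (powersetCard (k + 1) (univ : Finset (Fin n))).biUnion A := by
    intro c _
    obtain ⟨I, hI, hO⟩ := hcore c
    rw [mem_biUnion]
    refine ⟨univ.image I, ?_, ?_⟩
    · rw [mem_powersetCard]
      refine ⟨subset_univ _, ?_⟩
      rw [card_image_of_injective _ hI.injective, card_univ, Fintype.card_fin]
    · rw [mem_filter]
      have hS : (univ.image I).card = k + 1 := by
        rw [card_image_of_injective _ hI.injective, card_univ, Fintype.card_fin]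
      refine ⟨mem_univ _, hS, ?_⟩
      have h1 : I = (univ.image I).orderEmbOfFin hS :=
        Finset.orderEmbOfFin_unique hS (fun x => mem_image_of_mem I (mem_univ x)) hI
      rw [← h1]
      exact hO
  have hA : ∀ S ∈ powersetCard (k + 1) (univ : Finset (Fin n)),
      (A S).card ≤ Ws.card * φ ^ (n - (k + 1)) := by
    intro S hS
    have hSc : S.card = k + 1 := (mem_powersetCard.1 hS).2
    have h1 : Fintype.card ({d // d ∉ S} → (ZMod Q)ˣ) = φ ^ (n - (k + 1)) := by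
      rw [Fintype.card_fun, hU]
      congr 1
      rw [Fintype.card_subtype_compl, Fintype.card_coe, Fintype.card_fin, hSc]
    rw [← h1, ← Finset.card_univ (α := {d // d ∉ S} → (ZMod Q)ˣ), ← card_product]
    refine card_le_card_of_injOn
      (fun c => (c ∘ S.orderEmbOfFin hSc, fun d : {d // d ∉ S} => c d.1)) ?_ ?_
    · intro c hc
      rw [mem_coe, mem_filter] at hc
      rw [mem_coe, mem_product, hWs, mem_filter]
      exact ⟨⟨mem_univ _, hc.2.2⟩, mem_univ _⟩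
    · intro c _ c' _ hcc
      have h2 : c ∘ S.orderEmbOfFin hSc = c' ∘ S.orderEmbOfFin hSc := congrArg Prod.fst hcc
      have h3 : (fun d : {d // d ∉ S} => c d.1) = fun d : {d // d ∉ S} => c' d.1 :=
        congrArg Prod.snd hcc
      funext d
      by_cases hd : d ∈ S
      · have h4 : d ∈ Set.range (S.orderEmbOfFin hSc) := by
          rw [S.range_orderEmbOfFin hSc]
          exact hd
        obtain ⟨l, hl⟩ := h4
        rw [← hl]
        exact congrFun h2 l
      · exact congrFun h3 ⟨d, hd⟩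
  have h2 : φ ^ n ≤ n.choose (k + 1) * (Ws.card * φ ^ (n - (k + 1))) := by
    calc φ ^ n = (univ : Finset (Fin n → (ZMod Q)ˣ)).card := by
          rw [card_univ, Fintype.card_fun, hU, Fintype.card_fin]
      _ ≤ ((powersetCard (k + 1) (univ : Finset (Fin n))).biUnion A).card := card_le_card hcover
      _ ≤ ∑ S ∈ powersetCard (k + 1) (univ : Finset (Fin n)), (A S).card := card_biUnion_le
      _ ≤ ∑ _S ∈ powersetCard (k + 1) (univ : Finset (Fin n)),
          Ws.card * φ ^ (n - (k + 1)) := Finset.sum_le_sum hA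
      _ = n.choose (k + 1) * (Ws.card * φ ^ (n - (k + 1))) := by
          rw [sum_const, card_powersetCard, card_univ, Fintype.card_fin, smul_eq_mul]
  have h3 : φ ^ n = φ ^ (k + 1) * φ ^ (n - (k + 1)) := by
    rw [← pow_add]
    congr 1
    omega
  rw [h3, ← mul_assoc] at h2
  exact Nat.le_of_mul_le_mul_right h2 (pow_pos hφ0 _)

/-- of any `binom(9 (k+1)^2, k+1)` pairwise coprime moduli one has all words -/
theorem occ_family (k L s : ℕ) (hL : 0 < L) (hs : Nat.Coprime s L) (t : ℕ)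
    (ht : t = (9 * (k + 1) ^ 2).choose (k + 1)) (Q : Fin t → ℕ) (hQ : ∀ i, 0 < Q i)
    (hQL : ∀ i, Nat.Coprime (Q i) L) (hQQ : ∀ i j, i ≠ j → Nat.Coprime (Q i) (Q j)) :
    ∃ i, ∀ w : Fin (k + 1) → (ZMod (Q i))ˣ, Occ k L s (Q i) w := by
  classical
  by_contra hcon
  push Not at hcon
  choose w hw using hcon
  haveI : ∀ i, NeZero (Q i) := fun i => ⟨(hQ i).ne'⟩
  obtain ⟨n, hn⟩ : ∃ n : ℕ, n = 9 * (k + 1) ^ 2 := ⟨_, rfl⟩
  obtain ⟨ρ, hρ⟩ : ∃ ρ : Fin t → Fin (k + 1) → ℤ,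
      ∀ i l, ρ i l = (((w i l : ZMod (Q i)).val : ℕ) : ℤ) := ⟨_, fun _ _ => rfl⟩
  have hρc : ∀ i l, IsCoprime (ρ i l) (Q i : ℤ) := fun i l => by
    rw [hρ]
    exact Nat.isCoprime_iff_coprime.2 (ZMod.val_coe_unit_coprime (w i l))
  have hρw : ∀ i l, ((ρ i l : ℤ) : ZMod (Q i)) = w i l := fun i l => by
    rw [hρ, Int.cast_natCast, ZMod.natCast_zmod_val]
  have hcardI : Fintype.card {S : Finset (Fin n) // S.card = k + 1} = t := by
    rw [Fintype.card_finset_len, Fintype.card_fin, ht, hn]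
  obtain ⟨ev⟩ : Nonempty ({S : Finset (Fin n) // S.card = k + 1} ≃ Fin t) :=
    ⟨Fintype.equivFinOfCardEq hcardI⟩
  -- the letters
  obtain ⟨lt, hlt, hltm⟩ : ∃ lt : Fin t → Fin n → ℤ, (∀ i d, ∃ l, lt i d = ρ i l) ∧
      ∀ (S : {S : Finset (Fin n) // S.card = k + 1}) (l),
        lt (ev S) (S.1.orderEmbOfFin S.2 l) = ρ (ev S) l := by
    refine ⟨fun i d => if h : ∃ l, (ev.symm i).1.orderEmbOfFin (ev.symm i).2 l = d then
      ρ i h.choose else ρ i 0, ?_, ?_⟩
    · intro i d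
      by_cases h : ∃ l, (ev.symm i).1.orderEmbOfFin (ev.symm i).2 l = d
      · exact ⟨h.choose, dif_pos h⟩
      · exact ⟨0, dif_neg h⟩
    · intro S l
      have hgen : ∀ S' : {S : Finset (Fin n) // S.card = k + 1}, S' = S →
          ∀ l', S'.1.orderEmbOfFin S'.2 l' = S.1.orderEmbOfFin S.2 l → l' = l := by
        rintro S' rfl l' h
        exact (S'.1.orderEmbOfFin S'.2).injective h
      have h : ∃ l', (ev.symm (ev S)).1.orderEmbOfFin (ev.symm (ev S)).2 l' =
          S.1.orderEmbOfFin S.2 l := by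
        have hgen2 : ∀ S' : {S : Finset (Fin n) // S.card = k + 1}, S' = S →
            ∃ l', S'.1.orderEmbOfFin S'.2 l' = S.1.orderEmbOfFin S.2 l := by
          rintro S' rfl
          exact ⟨l, rfl⟩
        exact hgen2 _ (ev.symm_apply_apply S)
      show (if h : ∃ l', (ev.symm (ev S)).1.orderEmbOfFin (ev.symm (ev S)).2 l' =
        S.1.orderEmbOfFin S.2 l then ρ (ev S) h.choose else ρ (ev S) 0) = _
      rw [dif_pos h]
      exact congrArg (ρ (ev S)) (hgen _ (ev.symm_apply_apply S) _ h.choose_spec)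
  choose u hu1 hu2 hu3 hu4 using fun i => Pool.Agent.H21.LP.crt_exists L t Q hQL hQQ 0 i
  obtain ⟨c, hc⟩ : ∃ c : Fin n → ℤ, ∀ d, c d = ∑ i, u i * lt i d := ⟨_, fun _ => rfl⟩
  have hcQ : ∀ d i, (Q i : ℤ) ∣ c d - lt i d := by
    intro d i
    have e : c d - lt i d = (u i - 1) * lt i d + ∑ j ∈ univ.erase i, u j * lt j d := by
      rw [hc, ← Finset.add_sum_erase univ (fun j => u j * lt j d) (mem_univ i)]
      ring
    rw [e]
    refine dvd_add (dvd_mul_of_dvd_left (hu1 i) _) (Finset.dvd_sum fun j hj => ?_)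
    exact dvd_mul_of_dvd_left (hu2 j i (fun h => (mem_erase.1 hj).1 h.symm)) _
  obtain ⟨P, hP⟩ : ∃ P : ℕ, P = ∏ i, Q i := ⟨_, rfl⟩
  have hP0 : 0 < P := by
    rw [hP]
    exact Finset.prod_pos fun i _ => hQ i
  have hPL : Nat.Coprime P L := by
    rw [hP]
    exact Nat.Coprime.prod_left fun i _ => hQL i
  have hQP : ∀ i, (Q i : ℤ) ∣ (P : ℤ) := fun i => by
    have h1 : Q i ∣ P := by
      rw [hP]
      exact Finset.dvd_prod_of_mem Q (mem_univ i)
    exact_mod_cast h1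
  obtain ⟨I, hI, C, hC⟩ := words_core k L s hL hs n hn P hP0 hPL c (fun d => by
    rw [hP]
    push_cast
    refine IsCoprime.prod_right fun i _ => ?_
    obtain ⟨l, hl⟩ := hlt i d
    obtain ⟨z, hz⟩ := hcQ d i
    have e : c d = ρ i l + Q i * z := by
      rw [← hl]
      linarith
    rw [e]
    exact (hρc i l).add_mul_left_left z)
  have hS : (univ.image I).card = k + 1 := by
    rw [card_image_of_injective _ hI.injective, card_univ, Fintype.card_fin]
  have hIS : I = (univ.image I).orderEmbOfFin hS :=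
    Finset.orderEmbOfFin_unique hS (fun x => mem_image_of_mem I (mem_univ x)) hI
  refine hw (ev ⟨univ.image I, hS⟩) (occ_of_word (ρ := ρ (ev ⟨univ.image I, hS⟩))
    (fun j => hρw _ j) ⟨C, hC.mono ?_⟩)
  intro m hm j
  obtain ⟨h1, h2, h3⟩ := hm j
  refine ⟨h1, h2, ?_⟩
  have h4 : lt (ev ⟨univ.image I, hS⟩) (I j) = ρ (ev ⟨univ.image I, hS⟩) j := by
    have h5 := hltm ⟨univ.image I, hS⟩ j
    have h6 : (univ.image I).orderEmbOfFin hS j = I j := (congrFun hIS j).symm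
    rw [← h6]
    exact h5
  have h5 : c (I j) ≡ ρ (ev ⟨univ.image I, hS⟩) j [ZMOD Q (ev ⟨univ.image I, hS⟩)] := by
    rw [Int.modEq_comm, Int.modEq_iff_dvd, ← h4]
    exact hcQ (I j) _
  exact (h3.of_dvd (hQP _)).trans h5

theorem occ_adelic (k L s : ℕ) (hL : 0 < L) (hs : Nat.Coprime s L) :
    ∃ Q₀ : ℕ, 0 < Q₀ ∧ ∀ Q : ℕ, 0 < Q → Nat.Coprime Q Q₀ →
      ∀ w : Fin (k + 1) → (ZMod Q)ˣ, Occ k L s Q w := by
  obtain ⟨t, ht⟩ : ∃ t, (9 * (k + 1) ^ 2).choose (k + 1) = t + 1 := by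
    have h1 : 0 < (9 * (k + 1) ^ 2).choose (k + 1) := Nat.choose_pos (by nlinarith)
    exact ⟨(9 * (k + 1) ^ 2).choose (k + 1) - 1, by omega⟩
  exact Pool.Agent.H21.LP.adel (fun Q => ∀ w : Fin (k + 1) → (ZMod Q)ˣ, Occ k L s Q w) L t hL
    fun Q hQ hQL hQQ => occ_family k L s hL hs (t + 1) ht.symm Q hQ hQL hQQ

theorem occ_primes (k L s : ℕ) (hL : 0 < L) (hs : Nat.Coprime s L) :
    ∃ E : Finset ℕ, E.card < (9 * (k + 1) ^ 2).choose (k + 1) ∧
      ∀ p : ℕ, p.Prime → Nat.Coprime p L → p ∉ E → ∀ (e : ℕ) (w : Fin (k + 1) → (ZMod (p ^ e))ˣ),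
        Occ k L s (p ^ e) w := by
  classical
  obtain ⟨t, ht⟩ : ∃ t, t = (9 * (k + 1) ^ 2).choose (k + 1) := ⟨_, rfl⟩
  rw [← ht]
  set S : Set ℕ := {p | p.Prime ∧ Nat.Coprime p L ∧
    ∃ e : ℕ, ¬ ∀ w : Fin (k + 1) → (ZMod (p ^ e))ˣ, Occ k L s (p ^ e) w} with hS
  have hfin : ∀ F : Finset ℕ, (F : Set ℕ) ⊆ S → F.card < t := by
    intro F hF
    by_contra hcon
    push Not at hcon
    obtain ⟨G, hGF, hGc⟩ := Finset.exists_subset_card_eq hcon
    have h1 : ∀ i : Fin t, ((Finset.equivFinOfCardEq hGc).symm i).1 ∈ S := fun i =>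
      hF (hGF ((Finset.equivFinOfCardEq hGc).symm i).2)
    choose e he using fun i => (h1 i).2.2
    obtain ⟨i, hi⟩ := occ_family k L s hL hs t ht
      (fun i => ((Finset.equivFinOfCardEq hGc).symm i).1 ^ e i) (fun i => pow_pos (h1 i).1.pos _)
      (fun i => Nat.Coprime.pow_left _ (h1 i).2.1)
      (fun i j hij => by
        refine Nat.Coprime.pow _ _ ((Nat.coprime_primes (h1 i).1 (h1 j).1).2 ?_)
        intro h
        exact hij ((Finset.equivFinOfCardEq hGc).symm.injective (Subtype.ext h)))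
    exact he i hi
  have hSf : S.Finite := by
    by_contra hinf
    obtain ⟨F, hF, hFc⟩ := Set.Infinite.exists_subset_card_eq hinf t
    have := hfin F hF
    omega
  refine ⟨hSf.toFinset, hfin _ (by simp), fun p hp hpL hpE e w => ?_⟩
  by_contra hcon
  exact hpE (hSf.mem_toFinset.2 ⟨hp, hpL, e, fun h => hcon (h w)⟩)

end Pool.Agent.H21.PW
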